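import Pool.Agent.R377.BdR

/-!
For every prime `l` and every number field `F` there is a continuous character
`ρ : G_F → GL_1` of the algebraic closure of `ℚ_l` that is unramified outside `l`, whose values at
all geometric Frobenius elements at places `v` not above `l` are algebraic integers with all complex
conjugates of absolute value `q_v ^ (1/2)`, and with `D_dR = 0` at every place above `l`.

The character is `ψ ∘ χ`, with `χ` the `l`-adic cyclotomic character and `ψ` a continuous character
of `ℤ_l^×` that is the inverse of the square root near `1`.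
-/

namespace Pool.Agent.Results.MP_395897_nt.HalfTateTwist

open NumberField Pool.Agent.R377

/-- The characters of the absolute Galois group of `F` with values in the algebraic closure of
`ℚ_l` (representations of dimension one). -/
abbrev GalChar (l : ℕ) [Fact l.Prime] (F : Type*) [Field F] :=
  Gal(AlgebraicClosure F/F) →* (PadicAlgCl l)ˣ

variable {l : ℕ} [Fact l.Prime] {F : Type*} [Field F]

/-- The inertia group of the prime `P` of the ring of all algebraic integers is in the kernel. -/
def UnramifiedAt (ρ : GalChar l F) (P : Ideal (𝓞 (AlgebraicClosure F))) : Prop :=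
  ∀ τ : Gal(AlgebraicClosure F/F),
    (∀ x : 𝓞 (AlgebraicClosure F), τ • x - x ∈ P) → ρ τ = 1

/-- The norm of the prime of `F` below `P`, i.e. the number of elements of its residue field. -/
noncomputable def qP (P : Ideal (𝓞 (AlgebraicClosure F))) : ℕ := Nat.card (𝓞 F ⧸ P.under (𝓞 F))

/-- `φ` is an arithmetic Frobenius element at `P`. -/
def IsArithFrob (φ : Gal(AlgebraicClosure F/F)) (P : Ideal (𝓞 (AlgebraicClosure F))) : Prop :=
  ∀ x : 𝓞 (AlgebraicClosure F), φ • x - x ^ qP P ∈ P

/-- `α` is an algebraic integer, all of whose complex conjugates have absolute value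
`q ^ (w / 2)`. -/
def IsWeilInt (α : PadicAlgCl l) (q : ℕ) (w : ℤ) : Prop :=
  IsIntegral ℤ α ∧ ∀ z ∈ (minpoly ℚ α).aroots ℂ, ‖z‖ = (q : ℝ) ^ ((w : ℝ) / 2)

/-- At all places `v` not above `l`, the character is unramified and its value at the geometric
Frobenius elements is an algebraic integer, pure of weight `w`. -/
def PureIntegral (ρ : GalChar l F) (w : ℤ) : Prop :=
  ∀ P : Ideal (𝓞 (AlgebraicClosure F)), P.IsMaximal → (l : 𝓞 (AlgebraicClosure F)) ∉ P →
    UnramifiedAt ρ P ∧
      ∀ φ, IsArithFrob φ P → IsWeilInt (ρ φ⁻¹ : PadicAlgCl l) (qP P) w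

/-- `D_dR` of the restriction of `ρ` to the decomposition group at the place above `l` given by
the embedding `ι`: the elements of `V ⊗ B_dR` that are invariant under `ρ(σ) ⊗ g` for all `g` in
the local Galois group that restrict to an automorphism `σ` over `F`. -/
def DdR (ρ : GalChar l F) (ι : AlgebraicClosure F →+* PadicAlgCl l) : Set (VB l) :=
  {b | ∀ (g : Gal(PadicAlgCl l/ℚ_[l])) (σ : Gal(AlgebraicClosure F/F)),
    (∀ x, g (ι x) = ι (σ x)) → act (ρ σ : PadicAlgCl l) g b = b}

theorem result (l : ℕ) [Fact l.Prime] (F : Type*) [Field F] [NumberField F] :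
    ∃ ρ : GalChar l F, Continuous ρ ∧ PureIntegral ρ 1 ∧
      ∀ ι : AlgebraicClosure F →+* PadicAlgCl l, DdR ρ ι = {0} := by
  refine ⟨rho l F, continuous_rho l F, ?_, ?_⟩
  · intro P hPm hP
    have hPp : P.IsPrime := hPm.isPrime
    refine ⟨fun τ hτ => ?_, fun φ hφ => ?_⟩
    · change psi (chiF l F τ) = 1
      rw [chiF_inertia P hP τ hτ, map_one]
    · have h := rho_frob P hP φ hφ
      refine ⟨isIntegral_of_pow index_ne h, fun z hz => ?_⟩
      have h1 : ‖z‖ ^ 2 = ((qP P : ℕ) : ℝ) := norm_of_pow index_ne h hz
      rw [← h1, ← Real.rpow_natCast, ← Real.rpow_mul (norm_nonneg z)]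
      norm_num
  · intro ι
    exact Set.eq_singleton_iff_unique_mem.2 ⟨fun g σ _ => act_zero _ g, fun b hb => vb_zero ι b hb⟩

end Pool.Agent.Results.MP_395897_nt.HalfTateTwist
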