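import Mathlib
import Pool.Agent.R384.Z.MonoQ

/-!
# Potentially ordinary representations of the Galois groups of the fields in the `2`-extensions of `ℚ`
# are monomial

Let `q` be a prime number that is `3` or `5` modulo `8`, and let `L` be a number field (for example
`ℚ`) which is contained in a finite Galois extension `M / ℚ` of degree a power of `2`, unramified
outside `2`, `q` and infinity. Let `E` be a finite extension of `ℚ_2` (or the fraction field of any
Noetherian local domain with finite residue field of characteristic `2`), and let `V` be a continuous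
irreducible `E`-representation of `G_L`, of any dimension `n`, which is unramified outside `2`, `q`
and residually unipotent, such that the characteristic polynomials of all elements split over `E`.

Theorem: if `V` potentially contains a line at a place of `L` above `2` (for example if `V` is
potentially ordinary there), then `V` is monomial: it is induced from a character of `G_{L'}`, where
`L' / L` is an extension of degree `n` which is contained in a finite Galois extension of `L` of degree
a power of `2`. In particular `n` is a power of `2`.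
-/

set_option autoImplicit false

namespace Pool.Agent.Results.MP_395897_nt.MonomialOverTowersOfQ

open Matrix IsLocalRing

/-- An algebraic closure of `ℚ`. -/
abbrev QBar : Type := AlgebraicClosure ℚ

/-- The absolute Galois group of `k` (it will be `ℚ`). -/
def Gal (k : Type) [Field k] [Algebra k QBar] : Type := QBar ≃ₐ[k] QBar

/-- its group structure -/
noncomputable instance instGroupGal (k : Type) [Field k] [Algebra k QBar] : Group (Gal k) :=
  AlgEquiv.aut (R := k) (A₁ := QBar)

/-- its Krull topology -/
noncomputable instance instTopGal (k : Type) [Field k] [Algebra k QBar] :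
    TopologicalSpace (Gal k) := krullTopology k QBar

/-- The action of the Galois group on `ℚ̄`. -/
noncomputable def app {k : Type} [Field k] [Algebra k QBar] (σ : Gal k) (x : QBar) : QBar :=
  (show QBar ≃ₐ[k] QBar from σ) x

/-- The decomposition group of the place given by the embedding `ι` of `ℚ̄`. -/
def Dec {k : Type} [Field k] [Algebra k QBar] {p : ℕ} [Fact p.Prime]
    (ι : QBar →ₐ[ℚ] PadicAlgCl p) : Set (Gal k) :=
  {σ | ∃ τ : PadicAlgCl p ≃ₐ[ℚ_[p]] PadicAlgCl p, ∀ x, τ (ι x) = ι (app σ x)}

/-- Its inertia group: the automorphisms which are trivial on the residue field. -/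
def Inr {k : Type} [Field k] [Algebra k QBar] {p : ℕ} [Fact p.Prime]
    (ι : QBar →ₐ[ℚ] PadicAlgCl p) : Set (Gal k) :=
  {σ | ∃ τ : PadicAlgCl p ≃ₐ[ℚ_[p]] PadicAlgCl p, (∀ x, τ (ι x) = ι (app σ x)) ∧
    ∀ z : PadicAlgCl p, ‖z‖ ≤ 1 → ‖τ z - z‖ < 1}

/-- `N` is the Galois group of `ℚ̄ / M` for a finite Galois extension `M / k` whose degree is a
power of `2` and which is unramified at the primes outside `S`: `N` is a normal open subgroup of index
a power of `2` and contains the inertia groups of the primes outside `S`. -/
structure TwoExtension {k : Type} [Field k] [Algebra k QBar] (S : Set ℕ) (N : Subgroup (Gal k)) :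
    Prop where
  isOpen : IsOpen (N : Set (Gal k))
  normal : N.Normal
  index : ∃ a : ℕ, N.index = 2 ^ a
  unramified : ∀ (p : ℕ) [Fact p.Prime] (ι : QBar →ₐ[ℚ] PadicAlgCl p), p ∉ S →
    ∀ σ ∈ (Inr ι : Set (Gal k)), σ ∈ N

/-- The representation `ρ` of the absolute Galois group `H` of `L` is continuous, residually
unipotent and unramified outside `S`. -/
structure Admissible {k : Type} [Field k] [Algebra k QBar] (S : Set ℕ) {H : Subgroup (Gal k)}
    {A : Type} [CommRing A] [IsLocalRing A] [TopologicalSpace A] {n : ℕ} (ρ : H →* GL (Fin n) A) :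
    Prop where
  cont : ∀ i j, Continuous fun σ => (ρ σ : Matrix (Fin n) (Fin n) A) i j
  unipotent : ∀ σ, ∃ m : ℕ, ∀ i j,
    (((ρ σ : Matrix (Fin n) (Fin n) A) - 1) ^ m) i j ∈ maximalIdeal A
  unramified : ∀ (p : ℕ) [Fact p.Prime] (ι : QBar →ₐ[ℚ] PadicAlgCl p), p ∉ S →
    ∀ σ : H, (σ : Gal k) ∈ Inr ι → ρ σ = 1

/-- The action of `σ` on `V = F ^ n`. -/
noncomputable def act {k : Type} [Field k] [Algebra k QBar] {H : Subgroup (Gal k)} {A : Type}
    [CommRing A] (F : Type) [Field F] [Algebra A F] {n : ℕ} (ρ : H →* GL (Fin n) A) (σ : H)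
    (v : Fin n → F) : Fin n → F :=
  ((ρ σ : Matrix (Fin n) (Fin n) A).map (algebraMap A F)) *ᵥ v

/-- `V` is irreducible. -/
def Irreducible {k : Type} [Field k] [Algebra k QBar] {H : Subgroup (Gal k)} {A : Type}
    [CommRing A] (F : Type) [Field F] [Algebra A F] {n : ℕ} (ρ : H →* GL (Fin n) A) : Prop :=
  ∀ W : Submodule F (Fin n → F), (∀ σ, ∀ w ∈ W, act F ρ σ w ∈ W) → W = ⊥ ∨ W = ⊤

/-- `V` potentially contains a line on `D`: some nonzero vector of `V` is an eigenvector of all
elements of a subgroup `D'` of `H`, finitely many left cosets of which cover the elements of `H` which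
are in `D`. -/
def PotentialLine {k : Type} [Field k] [Algebra k QBar] {H : Subgroup (Gal k)} {A : Type}
    [CommRing A] (F : Type) [Field F] [Algebra A F] {n : ℕ} (ρ : H →* GL (Fin n) A)
    (D : Set (Gal k)) : Prop :=
  ∃ (D' : Subgroup H) (R : Set H) (v : Fin n → F), R.Finite ∧
    (∀ δ : H, (δ : Gal k) ∈ D → ∃ r ∈ R, r⁻¹ * δ ∈ D') ∧ v ≠ 0 ∧
    ∀ δ ∈ D', ∃ c : F, act F ρ δ v = c • v

/-- The representation `V` is monomial: there are an open subgroup `L'`, of index `n = dim V`, and a
nonzero vector of `V` which is an eigenvector of all elements of `L'`, so that the irreducible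
representation `V` is induced from the character of `L'` on this vector; `L'` contains an open normal
subgroup `T` of index a power of `2`. -/
def Monomial {k : Type} [Field k] [Algebra k QBar] {H : Subgroup (Gal k)} {A : Type}
    [CommRing A] (F : Type) [Field F] [Algebra A F] {n : ℕ} (ρ : H →* GL (Fin n) A) : Prop :=
  ∃ (T L' : Subgroup H) (u : Fin n → F), T.Normal ∧ IsOpen (T : Set H) ∧
    (∃ a : ℕ, T.index = 2 ^ a) ∧ T ≤ L' ∧ L'.index = n ∧ u ≠ 0 ∧
    ∀ σ ∈ L', ∃ c : F, act F ρ σ u = c • u

/-- The characteristic polynomials of all elements of the image split over `F`. -/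
def Split {k : Type} [Field k] [Algebra k QBar] {H : Subgroup (Gal k)} {A : Type}
    [CommRing A] (F : Type) [Field F] [Algebra A F] {n : ℕ} (ρ : H →* GL (Fin n) A) : Prop :=
  ∀ σ : H, ((ρ σ : Matrix (Fin n) (Fin n) A).map (algebraMap A F)).charpoly.Splits

/-- **Irreducible representations which potentially contain a line at a place above `2` are
monomial.** -/
theorem result (q : ℕ) (hq : q.Prime) (hq8 : q % 8 = 3 ∨ q % 8 = 5)
    (H N : Subgroup (Gal ℚ)) (hNH : N ≤ H) (hN : TwoExtension {2, q} N)
    (A : Type) [CommRing A] [IsLocalRing A] [IsNoetherianRing A] [TopologicalSpace A]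
    (hA : IsAdic (maximalIdeal A)) (hfin : Finite (ResidueField A)) (h2 : (2 : A) ∈ maximalIdeal A)
    (F : Type) [Field F] [Algebra A F] [IsFractionRing A F] (n : ℕ)
    (ρ : H →* GL (Fin n) A) (hρ : Admissible {2, q} ρ) (hirr : Irreducible F ρ) (hsp : Split F ρ)
    (ι : QBar →ₐ[ℚ] PadicAlgCl 2) (hline : PotentialLine F ρ (Dec ι)) : Monomial F ρ := by
  obtain ⟨D', R, v, hRf, hR, hv, hD'⟩ := hline
  exact Pool.Agent.Z384.fmmonoQ hq hq8 hNH hN.normal hN.index hN.isOpen
    (fun p _ ι hp hpq σ hσ => hN.unramified p ι (by simp [hp, hpq]) σ hσ) hA hfin h2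
    hρ.cont hρ.unipotent
    (fun p _ ι hp hpq σ hσ => hρ.unramified p ι (by simp [hp, hpq]) σ hσ) ι
    hRf hR hirr hsp hv hD'

end Pool.Agent.Results.MP_395897_nt.MonomialOverTowersOfQ
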